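import Mathlib
import Pool.Agent.Y1.KN.Stm5

/-!
# The bounds with multiplicities
-/

set_option autoImplicit false
set_option linter.unusedSectionVars false
set_option linter.unusedVariables false

namespace Pool.Agent.Y417.KN

open Finset Module Pool.Agent.TH170.MF Pool.Agent.TH170.QC Pool.Agent.TH170.QE Pool.Agent.TH170.FW
  Pool.Agent.TH170.GC Pool.Agent.Y1.KN
open Real

/-- The sum of the powers of the cosines is at most a Gaussian sum. -/
theorem sum_cw_le_gauss (N : ℕ) [NeZero N] (hodd : Odd N) {a : ℝ} (ha : 0 < a) :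
    ∑ t : ZMod N, cw N t ^ a ≤ 1 + ∑ i ∈ range (N / 2),
      2 * exp (-(a * π ^ 2 / (2 * N ^ 2)) * ((i + 1 : ℕ) : ℝ) ^ 2) := by
  classical
  have hN : (0 : ℝ) < N := Nat.cast_pos.2 (NeZero.pos N)
  obtain ⟨u, hu⟩ : ∃ u : ZMod N, 2 * u = 1 := by
    obtain ⟨k, hk⟩ := hodd
    refine ⟨-(k : ZMod N), ?_⟩
    have h1 : ((2 * k + 1 : ℕ) : ZMod N) = 0 := by
      rw [← hk, ZMod.natCast_self]
    push_cast at h1
    linear_combination -h1
  have hu' : u * 2 = 1 := by rw [mul_comm, hu]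
  have h1 : ∑ t : ZMod N, cw N t ^ a = ∑ s : ZMod N, cw N (u * s) ^ a := by
    symm
    refine Function.Bijective.sum_comp ⟨?_, ?_⟩ (fun t => cw N t ^ a)
    · intro s s' h
      have h2 : 2 * (u * s) = 2 * (u * s') := by
        rw [h]
      rwa [← mul_assoc, ← mul_assoc, hu, one_mul, one_mul] at h2
    · intro t
      exact ⟨2 * t, by rw [← mul_assoc, hu', one_mul]⟩
  set b : ℝ := a * π ^ 2 / (2 * N ^ 2) with hb
  have hb0 : 0 < b := by positivity
  let F : ℤ → ℝ := fun j => exp (-b * (j : ℝ) ^ 2)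
  have h2 : ∀ s : ZMod N, cw N (u * s) ^ a ≤ F s.valMinAbs := by
    intro s
    rw [cw_half N hu]
    have h3 := abs_cos_le_exp (abs_valMinAbs_le N s)
    refine (rpow_le_rpow (abs_nonneg _) h3 ha.le).trans ?_
    rw [← exp_mul]
    apply exp_le_exp.2
    rw [hb]
    apply le_of_eq
    field_simp
  have h3 : ∑ s : ZMod N, F s.valMinAbs ≤
      F 0 + ∑ i ∈ range (N / 2), (F ((i : ℤ) + 1) + F (-((i : ℤ) + 1))) := by
    rw [← sum_image (f := F) (g := fun s : ZMod N => s.valMinAbs)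
      (fun s _ s' _ h => ZMod.injective_valMinAbs h)]
    refine sum_int_le (N / 2) (fun j => (exp_pos _).le) _ ?_
    intro j hj
    obtain ⟨s, -, rfl⟩ := mem_image.1 hj
    exact ZMod.natAbs_valMinAbs_le s
  have h4 : ∀ i : ℕ, F ((i : ℤ) + 1) + F (-((i : ℤ) + 1)) =
      2 * exp (-b * ((i + 1 : ℕ) : ℝ) ^ 2) := by
    intro i
    simp only [F]
    push_cast
    rw [neg_sq]
    ring
  have h5 : F 0 = 1 := by simp [F]
  rw [h1]
  refine (sum_le_sum fun s _ => h2 s).trans (h3.trans ?_)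
  rw [h5, sum_congr rfl fun i _ => h4 i]

theorem geom_le {q : ℝ} (hq0 : 0 ≤ q) (hq : q ≤ 1 / 4) (n : ℕ) :
    ∑ i ∈ range n, q ^ (i + 1) ≤ 2 * q - 2 * q ^ (n + 1) := by
  induction n with
  | zero => simp
  | succ n ih =>
    rw [sum_range_succ]
    have h1 : q ^ (n + 1 + 1) = q ^ (n + 1) * q := pow_succ _ _
    have h2 : 0 ≤ q ^ (n + 1) := by positivity
    rw [h1]
    nlinarith

theorem sig_sharp : P_sig := by
  intro N _ a d hodd ha hd h
  have hN : (0 : ℝ) < N := Nat.cast_pos.2 (NeZero.pos N)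
  have hdR : (1 : ℝ) ≤ d := by exact_mod_cast hd
  have hd0 : (0 : ℝ) < d := by linarith
  set b : ℝ := a * π ^ 2 / (2 * N ^ 2) with hb
  have hb0 : 0 < b := by positivity
  have hbe : π ^ 2 * a / (2 * (N : ℝ) ^ 2) = b := by
    rw [hb]
    ring
  rw [hbe] at h
  set q : ℝ := exp (-b) with hq
  have hq0 : 0 ≤ q := (exp_pos _).le
  have hqd : q ≤ 1 / (4 * d) := by
    rw [hq, exp_neg, ← one_div]
    exact one_div_le_one_div_of_le (by positivity) h
  have hq4 : q ≤ 1 / 4 := by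
    refine hqd.trans ?_
    rw [div_le_div_iff₀ (by positivity) (by norm_num)]
    linarith
  have h1 := sum_cw_le_gauss N hodd ha
  have h2 : ∑ i ∈ range (N / 2), 2 * exp (-(a * π ^ 2 / (2 * N ^ 2)) * ((i + 1 : ℕ) : ℝ) ^ 2) ≤
      ∑ i ∈ range (N / 2), 2 * q ^ (i + 1) := by
    refine sum_le_sum fun i _ => ?_
    refine mul_le_mul_of_nonneg_left ?_ (by norm_num)
    rw [hq, ← exp_nat_mul]
    apply exp_le_exp.2
    rw [← hb]
    have h3 : (1 : ℝ) ≤ ((i + 1 : ℕ) : ℝ) := by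
      exact_mod_cast Nat.succ_le_succ (Nat.zero_le i)
    have h4 : ((i + 1 : ℕ) : ℝ) ≤ ((i + 1 : ℕ) : ℝ) ^ 2 := by nlinarith
    nlinarith
  have h3 : sig N a ≤ 1 + 1 / d := by
    rw [sig]
    refine h1.trans ?_
    have h4 := geom_le hq0 hq4 (N / 2)
    have h5 : 0 ≤ q ^ (N / 2 + 1) := by positivity
    rw [← mul_sum (range (N / 2)) (fun i => q ^ (i + 1)) 2] at h2
    have h6 : 4 * q ≤ 1 / d := by
      have h7 : 1 / (4 * (d : ℝ)) = 1 / d / 4 := by
        field_simp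
      rw [h7] at hqd
      linarith
    linarith
  calc sig N a ^ d ≤ (1 / d + 1) ^ d :=
        pow_le_pow_left₀ (sig_nonneg N a) (by linarith) d
    _ ≤ (exp (1 / d)) ^ d := pow_le_pow_left₀ (by positivity) (add_one_le_exp _) d
    _ = exp 1 := by
        rw [← exp_nat_mul, mul_one_div_cancel hd0.ne']

theorem genP (hG : P_gen) : P_genP := by
  intro G X _ _ _ _ _ _ m n g _ M c D S hS x₀ P hP1 hP2
  obtain ⟨hg1, hn, hd1, hdg, hr0, hL69⟩ := basicsW D.n0 D.cc D.free D.card hS x₀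
  have hm1 : 1 ≤ m := Nat.one_le_iff_ne_zero.2 (NeZero.ne m)
  have hmg : 0 < m * g := Nat.mul_pos hm1 hg1
  have hP0 : 0 < P := lt_of_lt_of_le (by norm_num) hP1
  have hcardpos : 0 < Nat.card G * n := Nat.mul_pos Nat.card_pos (Nat.pos_of_ne_zero D.n0)
  obtain ⟨p, hp, hpGn, hp1, hp2⟩ := exists_prime_not_dvd hP1 hcardpos hP2
  have hfact : Fact p.Prime := ⟨hp⟩
  have hp2500 : (2500 : ℝ) < p := by
    have h1 : (10 : ℝ) ^ 4 = 10000 := by norm_num
    rw [h1] at hP1
    linarith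
  have hp3 : 2 < p := by
    have h1 : (2 : ℝ) < p := by linarith
    exact_mod_cast h1
  have hodd : Odd p := hp.odd_of_ne_two (by omega)
  have hp0 : (0 : ℝ) < p := by linarith
  have hmain := hG G X m n g M c D S hS x₀ p (by omega) hpGn
  set d := finrank ℚ S with hd
  unfold codimFix at hmain
  rw [← hd] at hmain
  set h := finrank ℚ (fixedPart G x₀ S) with hh
  have hfix : h ≤ d := Submodule.finrank_mono fun u hu => hu.1
  have hdR : (1 : ℝ) ≤ d := by exact_mod_cast hd1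
  have hgR : (1 : ℝ) ≤ ((m * g : ℕ) : ℝ) := by exact_mod_cast hmg
  have hmgc : (m : ℝ) * g = ((m * g : ℕ) : ℝ) := by push_cast; ring
  rw [hmgc]
  set γ : ℝ := ((m * g : ℕ) : ℝ) with hγ
  have hγ0 : 0 < γ := by linarith
  have hsig1 : sig p (γ / d) ≤ p * (4 / P + √(2 * d / (π * γ))) := by
    have h1 := sum_cw_le p hodd (a := γ / d) (by positivity)
    have h2 : 2 / (π * (γ / d)) = 2 * d / (π * γ) := by
      field_simp
    rw [h2] at h1
    have h3 : (1 : ℝ) ≤ p * (4 / P) := by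
      rw [← mul_div_assoc, one_le_div hP0]
      linarith
    calc sig p (γ / d) ≤ 1 + p * √(2 * d / (π * γ)) := h1
      _ ≤ p * (4 / P) + p * √(2 * d / (π * γ)) := by linarith
      _ = _ := by ring
  have hpe : (1 : ℝ) ≤ ((p - 1 : ℕ) : ℝ) ^ edim G S := by
    refine one_le_pow₀ ?_
    have : 1 ≤ p - 1 := by omega
    exact_mod_cast this
  set N := (((orthP M c (killers G (S : Set (X → ℚ)))).ncard : ℕ) : ℝ) with hN
  set Q := 4 / P + √(2 * d / (π * γ)) with hQ
  have hQ0 : 0 ≤ Q := by positivity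
  have hN0 : 0 ≤ N := Nat.cast_nonneg _
  have h1 : N * (p : ℝ) ^ (d - h) ≤ 2 ^ (m * g) * (p ^ h * Q ^ d) * p ^ (d - h) := by
    calc N * (p : ℝ) ^ (d - h) ≤ N * (((p - 1 : ℕ) : ℝ) ^ edim G S * (p : ℝ) ^ (d - h)) := by
          refine mul_le_mul_of_nonneg_left ?_ hN0
          exact le_mul_of_one_le_left (by positivity) hpe
      _ ≤ 2 ^ (m * g) * sig p (γ / d) ^ d := hmain
      _ ≤ 2 ^ (m * g) * (p * Q) ^ d := by
          refine mul_le_mul_of_nonneg_left (pow_le_pow_left₀ (sig_nonneg _ _) hsig1 d)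
            (by positivity)
      _ = _ := by
          have h2 : (p : ℝ) ^ d = p ^ h * p ^ (d - h) := by
            rw [← pow_add, Nat.add_sub_cancel' hfix]
          rw [mul_pow, h2]
          ring
  have h2 := le_of_mul_le_mul_right h1 (by positivity)
  refine h2.trans ?_
  gcongr

theorem genB (hG : P_gen) : P_genB := by
  classical
  intro G X _ _ _ _ _ _ m n g _ M c D S hS x₀
  obtain ⟨hg1, hn, hd1, hdg, hr0, hL69⟩ := basicsW D.n0 D.cc D.free D.card hS x₀
  have hm1 : 1 ≤ m := Nat.one_le_iff_ne_zero.2 (NeZero.ne m)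
  have hmg : 0 < m * g := Nat.mul_pos hm1 hg1
  have hcc : ∀ x : PX X m, ((c, 1) : G × Multiplicative (ZMod m)) •
      ((c, 1) : G × Multiplicative (ZMod m)) • x = x := fun x => by
    rw [smul_smul, D.cc', one_smul]
  set r := edim G S with hr
  set e := codimFix G x₀ S with he
  set d := finrank ℚ S with hd
  set L := log ((Nat.card G * n : ℕ) : ℝ) with hL
  have hrpos : 0 < r := edim_pos hS.1
  have hcardpos : 0 < Nat.card G * n := Nat.mul_pos Nat.card_pos (Nat.pos_of_ne_zero D.n0)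
  have hdR : (1 : ℝ) ≤ d := by exact_mod_cast hd1
  set γ : ℝ := ((m * g : ℕ) : ℝ) with hγ
  have hγ1 : (1 : ℝ) ≤ γ := by
    rw [hγ]
    exact_mod_cast hmg
  have hγ0 : 0 < γ := by linarith
  have htot : (((orthP M c (killers G (S : Set (X → ℚ)))).ncard : ℕ) : ℝ) ≤ 2 ^ (m * g) := by
    have h1 : (orthP M c (killers G (S : Set (X → ℚ)))).ncard ≤ 2 ^ (m * g) :=
      (Set.ncard_le_ncard (fun f hf => hf.1) (finite_oddSigns _)).trans
        (ncard_oddSigns_le hcc D.free' D.card')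
    exact_mod_cast h1
  rw [boundB]
  split_ifs with hcond
  swap
  · rw [mul_one]
    exact htot
  rw [← hγ] at hcond ⊢
  set ℓ := log (4 * (d : ℝ)) with hℓ
  have hLpos : 0 < L := by linarith
  have hℓpos : 0 < ℓ := log_pos (by linarith)
  set P := 2 * √(γ / (d * ℓ)) with hPdef
  have hPsq : P ^ 2 = 4 * (γ / (d * ℓ)) := by
    rw [hPdef, mul_pow, sq_sqrt (by positivity)]
    norm_num
  have hPge : 10 ^ 4 + 10 * L ≤ P := by
    refine (pow_le_pow_iff_left₀ (by positivity) (by positivity) two_ne_zero).1 ?_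
    rw [hPsq, ← mul_div_assoc, le_div_iff₀ (by positivity)]
    linarith
  have hP1 : 10 ^ 4 ≤ P := by linarith
  have hP2 : 10 * L ≤ P := by
    have : (0 : ℝ) ≤ 10 ^ 4 := by norm_num
    linarith
  have hP0 : 0 < P := lt_of_lt_of_le (by norm_num) hP1
  obtain ⟨p, hp, hpGn, hp1, hp2⟩ := exists_prime_not_dvd hP1 hcardpos hP2
  have hfact : Fact p.Prime := ⟨hp⟩
  have hp3 : 2 < p := by
    have h1 : (2 : ℝ) < p := by
      have : (10 : ℝ) ^ 4 / 4 ≤ P / 4 := by linarith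
      norm_num at this
      linarith
    exact_mod_cast h1
  have hodd : Odd p := hp.odd_of_ne_two (by omega)
  have hp0 : (0 : ℝ) < p := by
    have h1 : 0 < p := hp.pos
    exact_mod_cast h1
  have hmain := hG G X m n g M c D S hS x₀ p (by omega) hpGn
  rw [← hr, ← he, ← hd, ← hγ] at hmain
  have hsig : sig p (γ / (d : ℝ)) ^ d ≤ exp 1 := by
    refine sig_sharp p (γ / d) d hodd (by positivity) hd1 ?_
    have h1 : ℓ ≤ π ^ 2 * (γ / d) / (2 * p ^ 2) := by
      rw [le_div_iff₀ (by positivity)]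
      have h2 : (p : ℝ) ^ 2 ≤ 4 * (γ / (d * ℓ)) := by
        rw [← hPsq]
        exact pow_le_pow_left₀ hp0.le hp2 2
      have h3 : (p : ℝ) ^ 2 * ℓ ≤ 4 * (γ / d) := by
        have h4 := mul_le_mul_of_nonneg_right h2 hℓpos.le
        have h5 : 4 * (γ / (d * ℓ)) * ℓ = 4 * (γ / d) := by field_simp
        linarith
      have h5 : (9 : ℝ) ≤ π ^ 2 := by nlinarith [pi_gt_three]
      have h6 : 0 ≤ γ / d := by positivity
      nlinarith
    calc 4 * (d : ℝ) = exp ℓ := by rw [hℓ, exp_log (by linarith)]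
      _ ≤ _ := exp_le_exp.2 h1
  have hcast : ((p - 1 : ℕ) : ℝ) = (p : ℝ) - 1 := by
    rw [Nat.cast_sub (by omega), Nat.cast_one]
  rw [hcast] at hmain
  have hpP : P / 4.01 ≤ (p : ℝ) - 1 := by
    have : (10 : ℝ) ^ 4 = 10000 := by norm_num
    rw [this] at hP1
    have h1 : P / 4.01 = P / 4 - P * (0.01 / (4 * 4.01)) := by ring
    rw [h1]
    nlinarith
  set B := √(32 * ℓ * d / γ) with hB
  have hB0 : 0 ≤ B := sqrt_nonneg _
  have hBP : 11.3 ≤ B * P := by
    refine (pow_le_pow_iff_left₀ (by norm_num) (by positivity) two_ne_zero).1 ?_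
    rw [mul_pow, hPsq, hB, sq_sqrt (by positivity)]
    have h1 : 32 * ℓ * d / γ * (4 * (γ / (d * ℓ))) = 32 * 4 := by field_simp
    rw [h1]
    norm_num
  have hBp : 2.72 ≤ B * ((p : ℝ) - 1) := by
    have h1 : B * (P / 4.01) ≤ B * ((p : ℝ) - 1) := mul_le_mul_of_nonneg_left hpP hB0
    have h2 : B * (P / 4.01) = B * P / 4.01 := by ring
    rw [h2] at h1
    have h3 : 2.72 ≤ B * P / 4.01 := by
      rw [le_div_iff₀ (by norm_num)]
      linarith
    exact h3.trans h1
  have hpow : exp 1 ≤ (B * ((p : ℝ) - 1)) ^ (r + e) := exp_one_le_pow hBp (by omega)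
  have hp10 : 0 < (p : ℝ) - 1 := by
    have : (2 : ℝ) < p := by exact_mod_cast hp3
    linarith
  have hpp : 0 < ((p : ℝ) - 1) ^ (r + e) := pow_pos hp10 _
  have hle : ((p : ℝ) - 1) ^ (r + e) ≤ ((p : ℝ) - 1) ^ r * (p : ℝ) ^ e := by
    rw [pow_add]
    exact mul_le_mul_of_nonneg_left (pow_le_pow_left₀ hp10.le (by linarith) _) (by positivity)
  have hfin : (((orthP M c (killers G (S : Set (X → ℚ)))).ncard : ℕ) : ℝ) *
      ((p : ℝ) - 1) ^ (r + e) ≤ 2 ^ (m * g) * B ^ (r + e) * ((p : ℝ) - 1) ^ (r + e) := by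
    refine (mul_le_mul_of_nonneg_left hle (Nat.cast_nonneg _)).trans (hmain.trans ?_)
    rw [mul_assoc, ← mul_pow]
    exact mul_le_mul_of_nonneg_left (hsig.trans hpow) (by positivity)
  exact le_of_mul_le_mul_right hfin hpp

end Pool.Agent.Y417.KN
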